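import Pool.Agent.Y320.CM.Stm

/-!
# Project CM: convergence dynamics (S_ATTR) and conical limit points (S_CON)
-/

set_option autoImplicit false
open Filter Topology

namespace Pool.Agent.Y145.CM

open Pool.Agent.Y320.CM

section basic

variable {G : Type} [Group G] {d : G → G → ℝ} {δ : ℝ}

theorem gp_symm (h : HypD G d δ) (w x y : G) : gp d w x y = gp d w y x := by
  unfold gp
  rw [h.symm x y]
  ring

theorem d_inv (h : HypD G d δ) (g : G) : d 1 g⁻¹ = d 1 g := by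
  have h1 := h.left g 1 g⁻¹
  rw [mul_one, mul_inv_cancel, h.symm g 1] at h1
  exact h1.symm

/-- `(g x | g)` -/
theorem gp_mul (h : HypD G d δ) (g x : G) : gp d 1 (g * x) g = d 1 g - gp d 1 x g⁻¹ := by
  have h1 := h.left g g⁻¹ x
  rw [mul_inv_cancel] at h1
  have h2 := h.left g x 1
  rw [mul_one] at h2
  unfold gp
  rw [h1, h2, d_inv h, h.symm x 1, h.symm g⁻¹ x]
  ring

theorem hyp2 (h : HypD G d δ) {w x y z : G} {K : ℝ} (h1 : K ≤ gp d w x y) (h2 : K ≤ gp d w y z) :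
    K - δ ≤ gp d w x z := by
  have := h.hyp w x y z
  have h3 : K ≤ min (gp d w x y) (gp d w y z) := le_min h1 h2
  linarith

theorem hyp2' (h : HypD G d δ) {w x y z : G} {K : ℝ} (h1 : K < gp d w x y) (h2 : K < gp d w y z) :
    K - δ < gp d w x z := by
  have := h.hyp w x y z
  have h3 : K < min (gp d w x y) (gp d w y z) := lt_min h1 h2
  linarith

/-- different points: bounded products -/
theorem bounded (h : HypD G d δ) {x z : ℕ → G} (hx : CI d x) (hz : CI d z) {K0 : ℝ}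
    (hn : ¬ Near d K0 x z) : ∃ M : ℕ, ∀ i j : ℕ, M ≤ i → M ≤ j →
      gp d 1 (x i) (z j) ≤ K0 + 2 * δ := by
  obtain ⟨M1, h1⟩ := hx (K0 + 2 * δ + 1)
  obtain ⟨M2, h2⟩ := hz (K0 + 2 * δ + 1)
  refine ⟨max M1 M2, fun i j hi hj => ?_⟩
  by_contra hc
  rw [not_le] at hc
  apply hn
  refine ⟨max M1 M2, fun i0 j0 hi0 hj0 => ?_⟩
  have a1 := h1 i0 i (by omega) (by omega)
  have a2 := h2 j j0 (by omega) (by omega)
  have hd := h.nonneg
  have a3 : K0 + 2 * δ - δ < gp d 1 (x i0) (z j) := hyp2' h (by linarith) hc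
  have a4 : K0 + δ - δ < gp d 1 (x i0) (z j0) :=
    hyp2' h (by linarith) (by linarith)
  linarith

theorem ev_large (h : HypD G d δ) {𝓦 : Ultrafilter G} (hW : (𝓦 : Filter G) ≤ cofinite) (r : ℝ) :
    ∀ᶠ g in (𝓦 : Filter G), r < d 1 g := by
  have h1 : {g : G | d 1 g ≤ r}ᶜ ∈ (cofinite : Filter G) := (h.fin r).compl_mem_cofinite
  filter_upwards [hW h1] with g hg
  exact not_le.1 hg

end basic

/-- CM-ATTR -/
theorem attr (hN : S_NHD) (hA : S_ACTC) : S_ATTR := by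
  intro G _ d δ φ τ h hB hE 𝓦 y z hW hy hz hWy hWz p hp
  obtain ⟨x, hx, rfl⟩ := hB.surj p
  obtain ⟨K0, hK0⟩ : ∃ K0, ¬ Near d K0 x z := by
    by_contra hc
    push Not at hc
    exact hp ((hB.eqv x z hx hz).2 hc)
  obtain ⟨M, hM⟩ := bounded h hx hz hK0
  have hd := h.nonneg
  -- the products with `g⁻¹` are bounded
  have h2 : ∀ᶠ g in (𝓦 : Filter G), ∀ i, M ≤ i → gp d 1 (x i) g⁻¹ ≤ K0 + 3 * δ := by
    have h3 : ∀ᶠ g in (𝓦 : Filter G), ∃ M' : ℕ, ∀ j, M' ≤ j → K0 + 3 * δ + 1 ≤ gp d 1 g⁻¹ (z j) :=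
      hWz (K0 + 3 * δ + 1)
    filter_upwards [h3] with g ⟨M', hM'⟩ i hi
    by_contra hc
    rw [not_le] at hc
    have h4 := hM' (max M M') (le_max_right _ _)
    have h5 := hM i (max M M') hi (le_max_left _ _)
    have h6 : K0 + 3 * δ - δ < gp d 1 (x i) (z (max M M')) := hyp2' h hc (by linarith)
    linarith
  have h3 : ∀ K : ℝ, ∀ᶠ g in (𝓦 : Filter G), Near d K (fun i => g * x i) y := by
    intro K
    filter_upwards [h2, ev_large h hW (K + δ + K0 + 3 * δ), hWy (K + δ)] with g h4 h5 ⟨M', h6⟩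
    refine ⟨max M M', fun i j hi hj => ?_⟩
    have h7 := h4 i (by omega)
    have h8 := h6 j (by omega)
    have h9 := gp_mul h g (x i)
    have h10 : K + δ - δ ≤ gp d 1 (g * x i) (y j) := hyp2 h (y := g) (by linarith) h8
    linarith
  rw [tendsto_iff_forall_eventually_mem]
  intro O hO
  obtain ⟨K, hK⟩ := (hN G d δ φ h hB y hy).2 O hO
  filter_upwards [h3 K] with g hg
  rw [hE g x hx]
  exact hK _ ((hA G d δ φ τ h hB hE).1 g x hx) hg

/-- CM-CON -/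
theorem con (hN : S_NHD) (hA : S_ACTC) (hR : S_RAYU) (hL : S_LIMPT) (hT : S_ATTR) : S_CON := by
  intro G _ d δ φ τ h hB hE x
  obtain ⟨r, hr, rfl⟩ := hB.surj x
  obtain ⟨𝓦₀, hW0, hC0, hray⟩ := hR G d δ h r hr
  set 𝓦 : Ultrafilter G := 𝓦₀.map (fun g => g⁻¹) with hWdef
  have hinv : Function.Injective (fun g : G => g⁻¹) := inv_injective
  have hW : (𝓦 : Filter G) ≤ cofinite := by
    rw [hWdef, Ultrafilter.coe_map]
    exact (Filter.map_mono hW0).trans hinv.tendsto_cofinite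
  have hWW : 𝓦.map (fun g => g⁻¹) = 𝓦₀ := by
    rw [hWdef, Ultrafilter.map_map]
    have : ((fun g : G => g⁻¹) ∘ fun g : G => g⁻¹) = id := by
      funext g
      simp
    rw [this, Ultrafilter.map_id]
  obtain ⟨y, hy, hWy⟩ := hL G d δ h 𝓦 hW
  have hatt := hT G d δ φ τ h hB hE 𝓦 y r hW hy hr hWy (by rw [hWW]; exact hC0)
  obtain ⟨w, -, hw⟩ := (isCompact_univ (X := Sph)).ultrafilter_le_nhds
    (𝓦.map (fun g => τ g (φ r))) (by simp)
  have hw' : Tendsto (fun g => τ g (φ r)) (𝓦 : Filter G) (𝓝 w) := hw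
  refine ⟨𝓦, φ y, w, ?_, hw', hatt⟩
  rintro rfl
  have hd := h.nonneg
  have e1 : ∀ᶠ g in (𝓦 : Filter G), ∃ x, CI d x ∧ φ x = τ g (φ r) ∧ Near d (3 * δ + 1) x y :=
    hw' ((hN G d δ φ h hB y hy).1 (3 * δ + 1))
  have e2 := hWy (3 * δ + 1)
  have e3 : ∀ᶠ g in (𝓦 : Filter G), ∃ M : ℕ, ∀ i, M ≤ i → d 1 g⁻¹ - δ ≤ gp d 1 (r i) g⁻¹ := by
    have : ∀ᶠ g in (𝓦 : Filter G), g⁻¹ ∈ {k : G | ∃ M : ℕ, ∀ i, M ≤ i →
        d 1 k - δ ≤ gp d 1 (r i) k} := by
      have h1 : {k : G | ∃ M : ℕ, ∀ i, M ≤ i → d 1 k - δ ≤ gp d 1 (r i) k} ∈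
          (𝓦.map (fun g => g⁻¹) : Filter G) := by
        rw [hWW]
        exact hray
      exact h1
    exact this
  obtain ⟨g, ⟨x', hx', hφ, M1, hM1⟩, ⟨M2, hM2⟩, M3, hM3⟩ := (e1.and (e2.and e3)).exists
  have hgr := (hA G d δ φ τ h hB hE).1 g r hr
  obtain ⟨M4, hM4⟩ : Near d (3 * δ + 1) (fun i => g * r i) x' := by
    refine (hB.eqv _ x' hgr hx').1 ?_ _
    rw [hφ, hE g r hr]
  set m := max (max M1 M2) (max M3 M4) with hm
  have a1 := hM4 m m (by omega) (by omega)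
  have a2 := hM1 m m (by omega) (by omega)
  have a3 := hM2 m (by omega)
  have a4 := hM3 m (by omega)
  have a5 := gp_mul h g (r m)
  have a6 : 3 * δ + 1 - δ ≤ gp d 1 (g * r m) (y m) := hyp2 h a1 a2
  rw [gp_symm h] at a3
  have a7 : 2 * δ + 1 - δ ≤ gp d 1 (g * r m) g := hyp2 h (by linarith) (by linarith)
  rw [d_inv h] at a4
  linarith

end Pool.Agent.Y145.CM
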